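import Pool.Agent.W845.PM.Base

set_option autoImplicit false
open scoped Classical
open Filter Topology MeasureTheory ProbabilityTheory
open scoped ENNReal NNReal BigOperators

namespace Pool.Agent.W845.PM

noncomputable section

theorem measurable_sh (i : ℕ) : Measurable (sh i) :=
  measurable_pi_lambda _ fun l => measurable_pi_apply (i :: l)

theorem tm_sum (F : Om → ℝ≥0∞) (hF : Measurable F) :
    Measurable (fun ω : Om => ∑ i ∈ Finset.range (ω []), F (sh i ω)) := by
  have h1 : Measurable (fun q : ℕ × Om => ∑ i ∈ Finset.range q.1, F (sh i q.2)) := by
    refine measurable_from_prod_countable_right fun m => ?_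
    exact Finset.measurable_sum (Finset.range m) fun i _ => hF.comp (measurable_sh i)
  have h2 : Measurable (fun ω : Om => ((ω [], ω) : ℕ × Om)) :=
    (measurable_pi_apply []).prodMk measurable_id
  exact h1.comp h2

theorem tm : S_TM := by
  refine ⟨tm_sum, fun g u0 hg k => ?_⟩
  induction k with
  | zero => exact measurable_const
  | succ k ih => exact (hg k).comp (tm_sum _ ih)

end

end Pool.Agent.W845.PM
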